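import Pool.Agent.Helper98.LP.H_Final

/-!
# Every linear Laurent phenomenon algebra is of finite type

The definitions are in `Pool/Agent/Helper98/LP/Defs.lean`.

Idea of the proof.  For a seed `t = (x, F)` let `U(t)` be the intersection of
`R[x^{±1}]` with the rings obtained from it by replacing `x_j` by `x_j / F_j(x)`.
`U = U(t)` is invariant under mutation.  Let `z` be the cluster variable number `j` of a seed,
and `v` a valuation of `K` whose ring dominates `R[z]_{(z_j)}`.  An element of `U` of positive
`v`-value is divisible by `z` in `U`, and `v` is not bounded on `U`.  Comparing `v` with the initial
linear seed and using Cramer's rule, `z` divides an initial cluster variable or a nonzero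
principal minor of `diag(F_i(x) / x_i) - (c_ij)`.  These are finitely many elements, each of which
has finitely many divisors in `U` up to units of `R`; and a seed is determined by its cluster.
-/

namespace Pool.Agent.Results.MP_d6d014_co.LinearFiniteType

open Pool.Agent.Helper98.LP

/-- Every linear LP algebra, over any unique factorization domain, is of finite type. -/
theorem result (R : Type*) [CommRing R] [IsDomain R] [UniqueFactorizationMonoid R]
    (n : ℕ) (K : Type*) [Field K] [Algebra R K]
    (A : LPAlgebra R n K) (hA : A.IsLinear) : A.IsFiniteType :=
  finite_type A hA

end Pool.Agent.Results.MP_d6d014_co.LinearFiniteType
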